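import Mathlib
import Pool.Agent.Helper1_PGH.FF
import Pool.Agent.Helper1_PGH.DerivExt

/-!
# The function field of a smooth curve is a function field of one variable
-/

open IntermediateField
open scoped IntermediateField.algebraAdjoinAdjoin nonZeroDivisors

namespace PGH

section

variable (k B E : Type*) [Field k] [Field E] [Algebra k E] [IsAlgClosed k] [CharZero k]
  [CommRing B] [IsDomain B] [Algebra k B] [Algebra B E] [IsScalarTower k B E] [IsFractionRing B E]

omit [IsAlgClosed k] [CharZero k] [Algebra k B] [IsScalarTower k B E] in
theorem deriv_ext_frac {D D' : Derivation k E E} 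
    (h : ∀ b : B, D (algebraMap B E b) = D' (algebraMap B E b)) : D = D' := by
  ext z
  obtain ⟨a, b, hb, rfl⟩ := IsFractionRing.div_surjective (A := B) z
  have hb0 : algebraMap B E b ≠ 0 := by
    simpa using nonZeroDivisors.ne_zero hb
  rw [Derivation.leibniz_div, Derivation.leibniz_div, h, h]

/-- Any two derivations are proportional. -/
theorem deriv_prop [Algebra.IsStandardSmoothOfRelativeDimension 1 k B] 
    (D D' : Derivation k E E) : ∃ a b : E, (a ≠ 0 ∨ b ≠ 0) ∧ a • D = b • D' := by
  have : Algebra.IsStandardSmooth k B := 
    Algebra.IsStandardSmoothOfRelativeDimension.isStandardSmooth 1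
  have hrank : Module.rank B Ω[B⁄k] = ((1 : ℕ) : Cardinal) :=
    Algebra.IsStandardSmoothOfRelativeDimension.rank_kaehlerDifferential 1
  have hfin : Module.finrank B Ω[B⁄k] = 1 := by
    rw [Module.finrank, hrank]; simp
  have hne : Module.Finite B Ω[B⁄k] := by
    apply Module.finite_of_finrank_eq_succ hfin
  let bs := Module.finBasisOfFinrankEq B Ω[B⁄k] hfin
  let ω := bs 0
  let res : Derivation k E E → Derivation k B E := fun D => 
    (D.restrictScalars k).compAlgebraMap B
  have hres : ∀ (D : Derivation k E E) b, res D b = D (algebraMap B E b) := fun D b => rfl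
  have key : ∀ D : Derivation k E E, ∀ b : B, D (algebraMap B E b) = 
      (algebraMap B E (bs.repr (KaehlerDifferential.D k B b) 0)) * 
        (res D).liftKaehlerDifferential ω := by
    intro D b
    rw [← hres, ← (res D).liftKaehlerDifferential_comp_D]
    conv_lhs => rw [← bs.sum_repr (KaehlerDifferential.D k B b)]
    rw [Fin.sum_univ_one, map_smul, Algebra.smul_def]
  by_cases h : (res D).liftKaehlerDifferential ω = 0
  · refine ⟨1, 0, Or.inl one_ne_zero, ?_⟩
    apply deriv_ext_frac k B E
    intro b
    have hb := key D b
    rw [Derivation.smul_apply, Derivation.smul_apply, hb, h]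
    simp
  · refine ⟨(res D').liftKaehlerDifferential ω, (res D).liftKaehlerDifferential ω, Or.inr h, ?_⟩
    apply deriv_ext_frac k B E
    intro b
    have hb := key D b
    have hb' := key D' b
    rw [Derivation.smul_apply, Derivation.smul_apply, hb, hb', smul_eq_mul, smul_eq_mul]
    ring

theorem FF.of_standardSmooth [Algebra.IsStandardSmoothOfRelativeDimension 1 k B] : FF k E := by
  have : Algebra.IsStandardSmooth k B := 
    Algebra.IsStandardSmoothOfRelativeDimension.isStandardSmooth 1
  have hrank : Module.rank B Ω[B⁄k] = ((1 : ℕ) : Cardinal) :=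
    Algebra.IsStandardSmoothOfRelativeDimension.rank_kaehlerDifferential 1
  have hFP : Algebra.FinitePresentation k B := inferInstance
  have hFT : Algebra.FiniteType k B := inferInstance
  have h1 : Algebra.EssFiniteType B E := Algebra.EssFiniteType.of_isLocalization E (nonZeroDivisors B)
  have h2 : Algebra.EssFiniteType k E := Algebra.EssFiniteType.comp k B E
  -- a transcendental element
  have hx : ∃ x : E, Transcendental k x := by
    by_contra hcon
    push Not at hcon
    have hsurj : ∀ b : B, ∃ c : k, algebraMap k B c = b := by
      intro b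
      have hb := hcon (algebraMap B E b)
      rw [Transcendental, not_not] at hb
      obtain ⟨c, hc⟩ := mem_range_of_isAlgebraic hb
      refine ⟨c, ?_⟩
      apply IsFractionRing.injective B E
      rw [← hc, ← IsScalarTower.algebraMap_apply]
    have hsub : Subsingleton Ω[B⁄k] := 
      KaehlerDifferential.subsingleton_of_surjective k B hsurj
    rw [rank_subsingleton'] at hrank
    simp at hrank
  obtain ⟨x, hx⟩ := hx
  have halg : Algebra.IsAlgebraic k⟮x⟯ E := by
    refine ⟨fun y => ?_⟩
    by_contra hy
    have hy' : Transcendental k⟮x⟯ y := hy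
    obtain ⟨δ, hδ⟩ := exists_deriv k⟮x⟯ E hy'
    obtain ⟨δ', hδ'⟩ := exists_deriv k E hx
    obtain ⟨a, b, hab, h⟩ := deriv_prop k B E (δ.restrictScalars k) δ'
    have h3 := congrArg (fun D : Derivation k E E => D x) h
    have h4 := congrArg (fun D : Derivation k E E => D y) h
    simp only [Derivation.smul_apply, Derivation.restrictScalars_apply, hδ, hδ', smul_eq_mul,
      mul_one] at h3 h4
    have h5 : δ x = 0 := by
      have := δ.map_algebraMap (⟨x, mem_adjoin_simple_self k x⟩ : k⟮x⟯)
      exact this
    rw [h5, mul_zero] at h3
    rw [← h3, zero_mul] at h4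
    rcases hab with h | h
    · exact h h4
    · exact h h3.symm
  have : Algebra.EssFiniteType k⟮x⟯ E := Algebra.EssFiniteType.of_comp k _ _
  exact FF.of_finite hx Algebra.finite_of_essFiniteType_of_isAlgebraic

end

end PGH
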