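import Mathlib
import Pool.Agent.Helper1_PGH.Ded

/-!
# A place dominating a local ring of a curve
-/

namespace PGH

theorem exists_place_of_local {k O E : Type*} [Field k] [IsAlgClosed k] [CharZero k] [CommRing O]
    [IsLocalRing O] [Field E] [Algebra k O] [Algebra O E] [Algebra k E] [IsScalarTower k O E]
    [IsFractionRing O E] [FF k E] (ψ : O →+* k) (hψ : ∀ c, ψ (algebraMap k O c) = c) :
    ∃ P : Place k E, ∀ r : O, ψ r = 0 → P.Ge 1 (algebraMap O E r) := by
  obtain ⟨A, h, hloc⟩ := IsLocalRing.exists_factor_valuationRing (algebraMap O E)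
  have hinj : Function.Injective (algebraMap O E) := IsFractionRing.injective O E
  have hnu : ∀ r : O, ψ r = 0 → ¬ IsUnit r := by
    intro r hr hu
    have := hu.map ψ
    rw [hr] at this
    exact not_isUnit_zero this
  have hnuA : ∀ r : O, ψ r = 0 → ¬ IsUnit (⟨algebraMap O E r, h r⟩ : A) := by
    intro r hr hu
    apply hnu r hr
    apply hloc.map_nonunit
    exact hu
  have hA : A ≠ ⊤ := by
    intro htop
    have hex : ∃ r : O, r ≠ 0 ∧ ψ r = 0 := by
      by_contra hcon
      push Not at hcon
      obtain ⟨x, hx⟩ := FF.exists_transcendental (L := k) (E := E)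
      rw [transcendental_iff] at hx
      have hO : ∀ r : O, r = algebraMap k O (ψ r) := by
        intro r
        by_contra hne
        apply hcon _ (sub_ne_zero.2 hne)
        rw [map_sub, hψ, sub_self]
      obtain ⟨a, b, hb, rfl⟩ := IsFractionRing.div_surjective (A := O) x
      apply hx (ψ a / ψ b)
      rw [map_div₀, IsScalarTower.algebraMap_apply k O E, IsScalarTower.algebraMap_apply k O E,
        ← hO, ← hO]
    obtain ⟨r, hr0, hr⟩ := hex
    apply hnuA r hr
    have hne : algebraMap O E r ≠ 0 := by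
      rw [Ne, map_eq_zero_iff _ hinj]; exact hr0
    have hmem : (algebraMap O E r)⁻¹ ∈ A := by rw [htop]; trivial
    exact IsUnit.of_mul_eq_one ⟨_, hmem⟩ (Subtype.ext (mul_inv_cancel₀ hne))
  have hL : ∀ c : k, algebraMap k E c ∈ A := by
    intro c
    rw [IsScalarTower.algebraMap_apply k O E]
    exact h _
  obtain ⟨P, hP⟩ := Place.exists_of_valuationSubring A hL hA
  have hPA : P.ring = A := by
    ext y
    rw [P.mem_ring, hP]
  refine ⟨P, fun r hr => ?_⟩
  rw [← P.v_valuation_lt_one, hPA]
  have h1 := hnuA r hr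
  have h2 := (A.valuation_lt_one_iff ⟨algebraMap O E r, h r⟩).1
  apply h2
  rw [IsLocalRing.mem_maximalIdeal]
  exact h1

end PGH
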