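import Mathlib
import Pool.Agent.Helper1_PGH.Defs
import Pool.Agent.Helper1_PGH.Ded
import Pool.Agent.Helper10_PGH.Curve
import Pool.Agent.Helper10_PGH.Dom

/-!
# From finiteness of homomorphisms to function fields to pseudo-geometric hyperbolicity
-/

open CategoryTheory AlgebraicGeometry TopologicalSpace

universe u

namespace PGH

section sec

variable {X : Scheme.{u}} (V : X.Opens)

theorem le_pre {X Y : Scheme.{u}} (f : X ⟶ Y) (V : X.Opens) : V ≤ f ⁻¹ᵁ ⊤ := 
  show V ≤ ⊤ from le_top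

theorem appTop_eq {X Y : Scheme.{u}} (f : X ⟶ Y) : f.appTop = f.appLE ⊤ ⊤ (le_pre f ⊤) := 
  Scheme.Hom.app_eq_appLE f

theorem appLE_comp {X Y Z : Scheme.{u}} (f : X ⟶ Y) (g : Y ⟶ Z) (U : Z.Opens) (V : Y.Opens)
    (W : X.Opens) (e₁ : V ≤ g ⁻¹ᵁ U) (e₂ : W ≤ f ⁻¹ᵁ V) (e₃ : W ≤ (f ≫ g) ⁻¹ᵁ U) :
    g.appLE U V e₁ ≫ f.appLE V W e₂ = (f ≫ g).appLE U W e₃ := 
  Scheme.Hom.appLE_comp_appLE f g U V W e₁ e₂

/-- The ring map attached to a morphism `Spec R ⟶ X` with image in `V`. -/
noncomputable def sec {R : CommRingCat.{u}} (s : Spec R ⟶ X) (hs : s ⁻¹ᵁ V = ⊤) :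
    Γ(X, V) ⟶ R :=
  s.appLE V ⊤ hs.ge ≫ (Scheme.ΓSpecIso R).hom

theorem sec_comp {R S : CommRingCat.{u}} (s : Spec R ⟶ X) (hs : s ⁻¹ᵁ V = ⊤) (ψ : R ⟶ S)
    (hs' : (Spec.map ψ ≫ s) ⁻¹ᵁ V = ⊤) :
    sec V (Spec.map ψ ≫ s) hs' = sec V s hs ≫ ψ := by
  unfold sec
  have h1 := Scheme.ΓSpecIso_naturality ψ
  rw [appTop_eq] at h1
  rw [Category.assoc, ← h1, ← Category.assoc, appLE_comp _ _ _ _ _ _ _ hs'.ge]

theorem sec_ext (hV : IsAffineOpen V) {R : CommRingCat.{u}} (s s' : Spec R ⟶ X)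
    (hs : s ⁻¹ᵁ V = ⊤) (hs' : s' ⁻¹ᵁ V = ⊤) (h : sec V s hs = sec V s' hs') : s = s' := by
  have h1 : s.appLE V ⊤ hs.ge = s'.appLE V ⊤ hs'.ge := by
    unfold sec at h
    exact (cancel_mono _).1 h
  have h2 := IsAffineOpen.SpecMap_appLE_fromSpec s hV (isAffineOpen_top _) hs.ge
  have h3 := IsAffineOpen.SpecMap_appLE_fromSpec s' hV (isAffineOpen_top _) hs'.ge
  rw [h1, h3] at h2
  rw [IsAffineOpen.fromSpec_top] at h2
  exact ((cancel_epi _).1 h2).symm

/-- the structure map of the sections over `V` of a `k`-scheme -/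
noncomputable def str (k : Type u) [Field k] (f : X ⟶ Spec (.of k)) : 
    CommRingCat.of k ⟶ Γ(X, V) :=
  (Scheme.ΓSpecIso (.of k)).inv ≫ f.appLE ⊤ V (le_pre f V)

theorem str_sec (k : Type u) [Field k] (f : X ⟶ Spec (.of k)) {R : CommRingCat.{u}}
    (s : Spec R ⟶ X) (hs : s ⁻¹ᵁ V = ⊤) (a : CommRingCat.of k ⟶ R) (h : s ≫ f = Spec.map a) :
    str V k f ≫ sec V s hs = a := by
  unfold str sec
  have h0 : f.appLE ⊤ V (le_pre f V) ≫ s.appLE V ⊤ hs.ge = (s ≫ f).appLE ⊤ ⊤ (le_pre _ _) := 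
    appLE_comp _ _ _ _ _ _ _ _
  have h1 := Scheme.ΓSpecIso_naturality a
  rw [appTop_eq] at h1
  simp_rw [h] at h0
  rw [Category.assoc, ← Category.assoc (f.appLE _ _ _), h0, Iso.inv_comp_eq, h1]

theorem str_germ (k : Type u) [Field k] (f : X ⟶ Spec (.of k)) [IrreducibleSpace X]
    (hV : genericPoint X ∈ V) :
    str V k f ≫ X.presheaf.germ V (genericPoint X) hV = CommRingCat.ofHom (constants k f) := by
  unfold str constants
  rw [CommRingCat.ofHom_hom]
  rw [Category.assoc]
  congr 1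
  rw [appTop_eq]
  have h1 := X.presheaf.germ_res (homOfLE (le_top : V ≤ ⊤)) (genericPoint X) hV
  rw [← h1, ← Category.assoc]
  congr 1
  exact (Scheme.Hom.appLE_map f (U := ⊤) (V := ⊤) (V' := V) (le_pre _ _) (homOfLE (le_top : V ≤ ⊤)).op).symm

end sec

section curve

theorem mem_of_nonempty_affine {X : Scheme.{u}} {V : X.Opens} (h : Nonempty V) 
    [IrreducibleSpace X] : genericPoint X ∈ V :=
  ((genericPoint_spec X).mem_open_set_iff V.isOpen).mpr (by simpa using h)

theorem FF.of_curve (k : Type u) [Field k] [IsAlgClosed k] [CharZero k] {C : Scheme.{u}} 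
    (g : C ⟶ Spec (.of k)) [IsIntegral C] [SmoothOfRelativeDimension 1 g] : 
    @FF k C.functionField _ _ (constants k g).toAlgebra := by
  obtain ⟨U, hU, V, hV, hη, e, hs⟩ := 
    SmoothOfRelativeDimension.exists_isStandardSmoothOfRelativeDimension (n := 1) (f := g) 
      (genericPoint C)
  have hUtop : U = ⊤ := by
    have h1 : g (genericPoint C) ∈ U := e hη
    apply Opens.ext
    apply Set.eq_univ_of_forall
    intro p
    have : p = g (genericPoint C) := Subsingleton.elim (α := PrimeSpectrum k) _ _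
    rw [this]
    exact h1
  subst hUtop
  have : Nonempty V := ⟨⟨_, hη⟩⟩
  let _ : Algebra k Γ(C, V) := (str V k g).hom.toAlgebra
  let _ : Algebra k C.functionField := (constants k g).toAlgebra
  have hst : IsScalarTower k Γ(C, V) C.functionField := by
    apply IsScalarTower.of_algebraMap_eq'
    have := congrArg CommRingCat.Hom.hom (str_germ V k g hη)
    exact this.symm
  have : IsFractionRing Γ(C, V) C.functionField := 
    functionField_isFractionRing_of_isAffineOpen C V hV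
  have hsm : (str V k g).hom.IsStandardSmoothOfRelativeDimension 1 := 
    (RingHom.isStandardSmoothOfRelativeDimension_respectsIso (n := 1)).2 _ 
      (Scheme.ΓSpecIso (CommRingCat.of k)).symm.commRingCatIsoToRingEquiv hs
  have : Algebra.IsStandardSmoothOfRelativeDimension 1 k Γ(C, V) := hsm
  exact FF.of_standardSmooth k Γ(C, V) C.functionField

end curve

section model

variable {X : Scheme.{u}} [IsIntegral X] {K : Type u} [Field K] (e : X.functionField ≃+* K)

/-- sections over a nonempty open set, seen in the field `K` -/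
noncomputable def jj (V : X.Opens) (hV : genericPoint X ∈ V) : Γ(X, V) →+* K :=
  (e : X.functionField →+* K).comp (X.presheaf.germ V (genericPoint X) hV).hom

theorem jj_inj (V : X.Opens) (hV : genericPoint X ∈ V) : Function.Injective (jj e V hV) :=
  e.injective.comp (germ_injective_of_isIntegral X (genericPoint X) hV)

theorem jj_res (V U : X.Opens) (hV : genericPoint X ∈ V) (hU : genericPoint X ∈ U) (h : V ≤ U)
    (z : Γ(X, U)) : jj e V hV (X.presheaf.map (homOfLE h).op z) = jj e U hU z := by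
  unfold jj
  rw [RingHom.comp_apply, RingHom.comp_apply]
  congr 1
  exact X.presheaf.germ_res_apply (homOfLE h) (genericPoint X) hV z

variable (k : Type u) [Field k] (f : X ⟶ Spec (.of k)) [Algebra k K]
    (he : ∀ c, e (constants k f c) = algebraMap k K c)

include he in
theorem jj_str (V : X.Opens) (hV : genericPoint X ∈ V) (c : k) : 
    jj e V hV (str V k f c) = algebraMap k K c := by
  rw [← he]
  exact congrArg e (congrArg (fun t => t.hom c) (str_germ V k f hV))

/-- the subalgebra of `K` given by the sections over `V` -/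
noncomputable def subalg (V : X.Opens) (hV : genericPoint X ∈ V) : Subalgebra k K :=
  { (jj e V hV).range with 
    algebraMap_mem' := fun c => ⟨str V k f c, jj_str e k f he V hV c⟩ }

theorem mem_subalg {V : X.Opens} {hV : genericPoint X ∈ V} {z : K} : 
    z ∈ subalg e k f he V hV ↔ ∃ w, jj e V hV w = z := Iff.rfl

theorem subalg_fg [LocallyOfFiniteType f] (V : X.Opens) (hV : genericPoint X ∈ V) 
    (hVa : IsAffineOpen V) : (subalg e k f he V hV).FG := by
  have h1 : (f.appLE ⊤ V (le_pre f V)).hom.FiniteType := 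
    f.finiteType_appLE (isAffineOpen_top _) hVa _
  have h2 : (str V k f).hom.FiniteType := by
    unfold str
    rw [CommRingCat.hom_comp]
    refine RingHom.FiniteType.comp h1 (RingHom.FiniteType.of_surjective _ ?_)
    exact (Scheme.ΓSpecIso (CommRingCat.of k)).symm.commRingCatIsoToRingEquiv.surjective
  let _ : Algebra k Γ(X, V) := (str V k f).hom.toAlgebra
  have h3 : Algebra.FiniteType k Γ(X, V) := h2
  let φ : Γ(X, V) →ₐ[k] K := { jj e V hV with commutes' := jj_str e k f he V hV }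
  have h4 : subalg e k f he V hV = (⊤ : Subalgebra k Γ(X, V)).map φ := by
    ext z
    rw [mem_subalg, Subalgebra.mem_map]
    constructor
    · rintro ⟨w, hw⟩
      exact ⟨w, trivial, hw⟩
    · rintro ⟨w, -, hw⟩
      exact ⟨w, hw⟩
  rw [h4]
  exact h3.out.map φ

theorem subalg_basicOpen (U : X.Opens) (hU : genericPoint X ∈ U) (hUa : IsAffineOpen U)
    (d : Γ(X, U)) (hV : genericPoint X ∈ X.basicOpen d) : 
    subalg e k f he (X.basicOpen d) hV = 
      Algebra.adjoin k ((subalg e k f he U hU : Set K) ∪ {(jj e U hU d)⁻¹}) := by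
  have hloc := hUa.isLocalization_basicOpen d
  have hres : ∀ z : Γ(X, U), jj e (X.basicOpen d) hV (algebraMap Γ(X, U) Γ(X, X.basicOpen d) z) = 
      jj e U hU z := fun z => jj_res e _ _ hV hU _ z
  have hunit : IsUnit (algebraMap Γ(X, U) Γ(X, X.basicOpen d) (d : Γ(X, U))) := 
    IsLocalization.Away.algebraMap_isUnit d
  obtain ⟨w, hw⟩ := hunit
  have hw2 : jj e (X.basicOpen d) hV ((w⁻¹ : (Γ(X, X.basicOpen d))ˣ) : Γ(X, X.basicOpen d)) = (jj e U hU d)⁻¹ := by
    rw [← hres, ← hw]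
    apply eq_inv_of_mul_eq_one_left
    rw [← map_mul, Units.inv_mul, map_one]
  apply le_antisymm
  · intro z hz
    obtain ⟨y, rfl⟩ := mem_subalg e k f he |>.1 hz
    obtain ⟨⟨a, ⟨_, n, rfl⟩⟩, hs⟩ := IsLocalization.surj (Submonoid.powers d) y
    dsimp only at hs
    have h1 : jj e (X.basicOpen d) hV y = jj e U hU a * ((jj e U hU d)⁻¹) ^ n := by
      rw [← hres a, ← hs, ← hw2, map_pow, ← hw, map_mul, map_pow, mul_assoc, ← mul_pow,
        ← map_mul, Units.mul_inv, map_one, one_pow, mul_one]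
    rw [h1]
    have h2 : jj e U hU a ∈ Algebra.adjoin k 
        ((subalg e k f he U hU : Set K) ∪ {(jj e U hU d)⁻¹}) :=
      Algebra.subset_adjoin (Or.inl ⟨a, rfl⟩)
    have h3 : (jj e U hU d)⁻¹ ∈ Algebra.adjoin k 
        ((subalg e k f he U hU : Set K) ∪ {(jj e U hU d)⁻¹}) :=
      Algebra.subset_adjoin (Or.inr rfl)
    exact mul_mem h2 (pow_mem h3 n)
  · rw [Algebra.adjoin_le_iff]
    rintro z (⟨a, rfl⟩ | hz)
    · exact ⟨_, hres a⟩
    · rw [Set.mem_singleton_iff] at hz
      rw [hz]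
      exact ⟨_, hw2⟩

end model

end PGH
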