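import Mathlib
import Pool.Agent.Helper10_PGH.Sections

/-!
# The scheme bridge: from homomorphisms of rings to pseudo-geometric hyperbolicity
-/

open CategoryTheory AlgebraicGeometry TopologicalSpace

universe u

namespace PGH

section points

theorem pre_top {X Y : Scheme.{u}} (h : X ⟶ Y) : h ⁻¹ᵁ ⊤ = ⊤ := rfl

theorem mem_top' {X : Scheme.{u}} (y : X) : y ∈ (⊤ : X.Opens) := trivial

theorem sec_fromSpecStalk {X : Scheme.{u}} (V : X.Opens) (y : X) (hy : y ∈ V)
    (hs : X.fromSpecStalk y ⁻¹ᵁ V = ⊤) :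
    sec V (X.fromSpecStalk y) hs = X.presheaf.germ V y hy := by
  unfold sec Scheme.Hom.appLE
  rw [Scheme.fromSpecStalk_app hy, Category.assoc, Category.assoc, Category.assoc]
  have h1 : (Spec (X.presheaf.stalk y)).presheaf.map 
      (homOfLE (le_top : X.fromSpecStalk y ⁻¹ᵁ V ≤ ⊤)).op ≫ 
      (Spec (X.presheaf.stalk y)).presheaf.map (homOfLE hs.ge).op = 𝟙 _ := by
    rw [← Functor.map_comp]
    exact (Spec (X.presheaf.stalk y)).presheaf.map_id _
  have h2 := congrArg (fun t => (Scheme.ΓSpecIso (X.presheaf.stalk y)).inv ≫ t ≫ 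
    (Scheme.ΓSpecIso (X.presheaf.stalk y)).hom) h1
  rw [Category.id_comp, Iso.inv_hom_id, Category.assoc] at h2
  rw [h2, Category.comp_id]

theorem preimage_fromSpecStalk {X Y : Scheme.{u}} (h : X ⟶ Y) (V : Y.Opens) (y : X) 
    (hy : h y ∈ V) : (X.fromSpecStalk y ≫ h) ⁻¹ᵁ V = ⊤ := by
  apply Scheme.preimage_eq_top_of_closedPoint_mem
  change h (X.fromSpecStalk y (IsLocalRing.closedPoint (X.presheaf.stalk y))) ∈ V
  have := Scheme.fromSpecStalk_closedPoint (X := X) (x := y)
  rw [this]
  exact hy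

theorem isDominant_generic {X : Scheme.{u}} [IrreducibleSpace X] : 
    IsDominant (X.fromSpecStalk (genericPoint X)) := by
  constructor
  unfold DenseRange
  rw [Scheme.range_fromSpecStalk]
  have h1 : Dense ({genericPoint X} : Set X) := by
    rw [dense_iff_closure_eq]
    exact genericPoint_closure _
  apply h1.mono
  rintro _ rfl
  exact specializes_rfl

/-- the `k`-algebra structure of the function field is compatible with the one of a stalk -/
theorem comp_generic (k : Type u) [Field k] {C : Scheme.{u}} [IrreducibleSpace C] 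
    (g : C ⟶ Spec (.of k)) : 
    C.fromSpecStalk (genericPoint C) ≫ g = Spec.map (CommRingCat.ofHom (constants k g)) := by
  obtain ⟨a, ha⟩ : ∃ a, C.fromSpecStalk (genericPoint C) ≫ g = Spec.map a := 
    ⟨Spec.preimage _, (Spec.map_preimage _).symm⟩
  rw [ha]
  congr 1
  rw [← str_germ ⊤ k g (mem_top' _), 
    ← str_sec ⊤ k g (C.fromSpecStalk (genericPoint C)) (pre_top _) a ha,
    sec_fromSpecStalk ⊤ (genericPoint C) (mem_top' _)]

end points

section main

theorem exists_denominator {R F : Type*} [CommRing R] [IsDomain R] [Field F] [Algebra R F] 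
    [IsFractionRing R F] {T : Set F} (hT : T.Finite) : 
    ∃ d : R, d ≠ 0 ∧ ∀ t ∈ T, ∃ a : R, algebraMap R F a = algebraMap R F d * t := by
  obtain ⟨b, hb⟩ := IsLocalization.exist_integer_multiples_of_finset (nonZeroDivisors R) 
    (S := F) hT.toFinset
  refine ⟨b, nonZeroDivisors.ne_zero b.2, ?_⟩
  intro t ht
  obtain ⟨a, ha⟩ := hb t (hT.mem_toFinset.2 ht)
  refine ⟨a, ?_⟩
  rw [ha, Algebra.smul_def]

theorem isPGH_of_fields (k : Type u) [Field k] [IsAlgClosed k] [CharZero k] {X : Scheme.{u}}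
    (f : X ⟶ Spec (.of k)) [IsIntegral X] [IsSeparated f] [LocallyOfFiniteType f] [QuasiCompact f]
    (K : Type u) [Field K] [Algebra k K] (e : X.functionField ≃+* K)
    (he : ∀ c, e (constants k f c) = algebraMap k K c)
    (h : ∀ A : Subalgebra k K, A.FG → ∃ T : Set K, T.Finite ∧ 
      ∀ d ∈ A, d ≠ 0 → T ⊆ (Algebra.adjoin k ((A : Set K) ∪ {d⁻¹}) : Set K) →
      ∀ (E : Type u) [Field E] [Algebra k E] [FF k E] (P : Place k E)
        (x : Algebra.adjoin k ((A : Set K) ∪ {d⁻¹}) →ₐ[k] k),
        {φ : Algebra.adjoin k ((A : Set K) ∪ {d⁻¹}) →ₐ[k] E |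
          ∀ r, P.Ge 1 (φ r - algebraMap k E (x r))}.Finite) :
    IsPGH k f := by
  obtain ⟨U, hU, hηU, -⟩ := exists_isAffineOpen_mem_and_subset (X := X) (x := genericPoint X)
    (U := ⊤) trivial
  obtain ⟨T, hT, hh⟩ := h (subalg e k f he U hηU) (subalg_fg e k f he U hηU hU)
  have hne : Nonempty U := ⟨⟨_, hηU⟩⟩
  have := functionField_isFractionRing_of_isAffineOpen X U hU
  obtain ⟨d, hd0, hd⟩ := exists_denominator (R := Γ(X, U)) (F := X.functionField)
    (T := e.symm '' T) (hT.image _)
  have hgd : X.presheaf.germ U (genericPoint X) hηU d ≠ 0 := by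
    rw [Ne, map_eq_zero_iff _ (germ_injective_of_isIntegral X (genericPoint X) hηU)]
    exact hd0
  have hηV : genericPoint X ∈ X.basicOpen d := by
    rw [Scheme.mem_basicOpen X d _ hηU]
    exact isUnit_iff_ne_zero.2 hgd
  have hjd : jj e U hηU d ≠ 0 := by
    rw [Ne, map_eq_zero_iff _ (jj_inj e U hηU)]
    exact hd0
  set V := X.basicOpen d with hVdef
  have hV : IsAffineOpen V := hU.basicOpen d
  have hR := subalg_basicOpen e k f he U hηU hU d hηV
  have hTR : T ⊆ (Algebra.adjoin k ((subalg e k f he U hηU : Set K) ∪ {(jj e U hηU d)⁻¹}) : 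
      Set K) := by
    intro t ht
    obtain ⟨a, ha⟩ := hd (e.symm t) ⟨t, ht, rfl⟩
    have h1 : jj e U hηU a = jj e U hηU d * t := by
      have := congrArg e ha
      rw [map_mul, e.apply_symm_apply] at this
      exact this
    have h2 : t = jj e U hηU a * (jj e U hηU d)⁻¹ := by
      rw [h1]; field_simp
    have h3 : jj e U hηU a ∈ Algebra.adjoin k 
        ((subalg e k f he U hηU : Set K) ∪ {(jj e U hηU d)⁻¹}) :=
      Algebra.subset_adjoin (Or.inl ⟨a, rfl⟩)
    have h4 : (jj e U hηU d)⁻¹ ∈ Algebra.adjoin k 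
        ((subalg e k f he U hηU : Set K) ∪ {(jj e U hηU d)⁻¹}) :=
      Algebra.subset_adjoin (Or.inr rfl)
    rw [h2]
    exact mul_mem h3 h4
  have hfin := hh (jj e U hηU d) ⟨d, rfl⟩ hjd hTR
  revert hfin
  generalize hRdef : Algebra.adjoin k ((subalg e k f he U hηU : Set K) ∪ {(jj e U hηU d)⁻¹}) = R
  intro hfin
  rw [hRdef] at hR
  have hmem : ∀ z, jj e V hηV z ∈ R := fun z => by rw [← hR]; exact ⟨z, rfl⟩
  let θ : Γ(X, V) ≃+* R := RingEquiv.ofBijective ((jj e V hηV).codRestrict R hmem) (by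
    constructor
    · intro a b hab
      exact jj_inj e V hηV (congrArg Subtype.val hab)
    · rintro ⟨z, hz⟩
      rw [← hR] at hz
      obtain ⟨w, hw⟩ := hz
      exact ⟨w, Subtype.ext hw⟩)
  have hθ : ∀ c : k, θ (str V k f c) = algebraMap k R c := fun c => 
    Subtype.ext (jj_str e k f he V hηV c)
  have hθ' : ∀ c : k, θ.symm (algebraMap k R c) = str V k f c := fun c => by
    rw [← hθ, θ.symm_apply_apply]
  refine ⟨(V : Set X)ᶜ, V.isOpen.isClosed_compl, ?_, ?_⟩
  · intro hcon
    have : genericPoint X ∈ (V : Set X)ᶜ := by rw [hcon]; trivial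
    exact this hηV
  intro x hx hxZ C g hC c hc
  have := hC.integral
  have := hC.separated
  have := hC.quasiCompact
  have := hC.smooth
  let _ : Algebra k C.functionField := (constants k g).toAlgebra
  have hFF : FF k C.functionField := FF.of_curve k g
  have hxV : x ⁻¹ᵁ V = ⊤ := by
    apply Opens.ext
    apply Set.eq_univ_of_forall
    intro p
    exact not_not.1 (hxZ p)
  let pt : Spec (.of k) := IsLocalRing.closedPoint k
  let y : C := c pt
  let ψ : C.presheaf.stalk y ⟶ CommRingCat.of k := Scheme.stalkClosedPointTo c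
  have hcs : Spec.map ψ ≫ C.fromSpecStalk y = c := Scheme.Spec_stalkClosedPointTo_fromSpecStalk c
  let _ : Algebra k (C.presheaf.stalk y) := 
    (str ⊤ k g ≫ C.presheaf.germ ⊤ y (mem_top' y)).hom.toAlgebra
  have hspec : genericPoint C ⤳ y := (genericPoint_spec C).specializes trivial
  have hst : IsScalarTower k (C.presheaf.stalk y) C.functionField := by
    apply IsScalarTower.of_algebraMap_eq'
    have h1 : (str ⊤ k g ≫ C.presheaf.germ ⊤ y (mem_top' y)) ≫ C.presheaf.stalkSpecializes hspec = 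
        CommRingCat.ofHom (constants k g) := by
      rw [Category.assoc, TopCat.Presheaf.germ_stalkSpecializes, str_germ ⊤ k g (mem_top' _)]
    exact (congrArg CommRingCat.Hom.hom h1).symm
  have hψ : ∀ a : k, ψ.hom (algebraMap k (C.presheaf.stalk y) a) = a := by
    intro a
    have h1 : str ⊤ k g ≫ sec ⊤ c (pre_top c) = 𝟙 _ := 
      str_sec ⊤ k g c (pre_top c) _ (by rw [hc]; exact (Spec.map_id _).symm)
    have h2 : sec ⊤ c (pre_top c) = C.presheaf.germ ⊤ y (mem_top' y) ≫ ψ := by
      have h3 := sec_comp ⊤ (C.fromSpecStalk y) (pre_top _) ψ (pre_top _)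
      rw [sec_fromSpecStalk ⊤ y (mem_top' y)] at h3
      simp_rw [hcs] at h3
      exact h3
    rw [h2, ← Category.assoc] at h1
    exact congrArg (fun t => t.hom a) h1
  obtain ⟨P, hP⟩ := exists_place_of_local (k := k) (O := C.presheaf.stalk y) 
    (E := C.functionField) ψ.hom hψ
  have hxstr : ∀ a : k, sec V x hxV (str V k f a) = a := fun a =>
    congrArg (fun t => t.hom a) (str_sec V k f x hxV (𝟙 _) (by rw [hx]; exact (Spec.map_id _).symm))
  let xr : R →ₐ[k] k := { (sec V x hxV).hom.comp (θ.symm : R →+* Γ(X, V)) with 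
    commutes' := fun a => by
      change sec V x hxV (θ.symm (algebraMap k R a)) = a
      rw [hθ', hxstr] }
  have hxr : ∀ w : Γ(X, V), xr (θ w) = sec V x hxV w := fun w => by
    change sec V x hxV (θ.symm (θ w)) = _
    rw [θ.symm_apply_apply]
  have hF := hfin C.functionField P xr
  -- the maps attached to `h : C ⟶ X`
  have hy : ∀ h : C ⟶ X, c ≫ h = x → h y ∈ V := by
    rintro h rfl
    have : pt ∈ (c ≫ h) ⁻¹ᵁ V := by rw [hxV]; trivial
    exact this
  have hη : ∀ h : C ⟶ X, c ≫ h = x → h (genericPoint C) ∈ V := fun h hh =>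
    (hspec.map h.continuous).mem_open V.2 (hy h hh)
  let σ : ∀ h : C ⟶ X, c ≫ h = x → (Γ(X, V) ⟶ C.presheaf.stalk y) := fun h hh => 
    sec V (C.fromSpecStalk y ≫ h) (preimage_fromSpecStalk h V y (hy h hh))
  let τ : ∀ h : C ⟶ X, c ≫ h = x → (Γ(X, V) ⟶ C.functionField) := fun h hh => 
    sec V (C.fromSpecStalk (genericPoint C) ≫ h) 
      (preimage_fromSpecStalk h V (genericPoint C) (hη h hh))
  have hτσ : ∀ h hh, τ h hh = σ h hh ≫ C.presheaf.stalkSpecializes hspec := by
    intro h hh
    have h1 : Spec.map (C.presheaf.stalkSpecializes hspec) ≫ (C.fromSpecStalk y ≫ h) = 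
        C.fromSpecStalk (genericPoint C) ≫ h := by
      rw [← Category.assoc, Scheme.SpecMap_stalkSpecializes_fromSpecStalk]
    have h2 := sec_comp V (C.fromSpecStalk y ≫ h) (preimage_fromSpecStalk h V y (hy h hh))
      (C.presheaf.stalkSpecializes hspec) (by 
        rw [h1]; exact preimage_fromSpecStalk h V (genericPoint C) (hη h hh))
    simp_rw [h1] at h2
    exact h2
  have hσx : ∀ h hh, sec V x hxV = σ h hh ≫ ψ := by
    intro h hh
    have h1 : Spec.map ψ ≫ (C.fromSpecStalk y ≫ h) = x := by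
      rw [← Category.assoc, hcs, hh]
    have h2 := sec_comp V (C.fromSpecStalk y ≫ h) (preimage_fromSpecStalk h V y (hy h hh)) ψ 
      (by rw [h1, hxV])
    simp_rw [h1] at h2
    exact h2
  have hτstr : ∀ h hh, h ≫ f = g → ∀ a : k, τ h hh (str V k f a) = constants k g a := by
    intro h hh hg a
    have h1 : (C.fromSpecStalk (genericPoint C) ≫ h) ≫ f = 
        Spec.map (CommRingCat.ofHom (constants k g)) := by
      rw [Category.assoc, hg, comp_generic]
    exact congrArg (fun t => t.hom a) (str_sec V k f _ 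
      (preimage_fromSpecStalk h V (genericPoint C) (hη h hh)) _ h1)
  let F : ∀ h : {h : C ⟶ X | h ≫ f = g ∧ c ≫ h = x}, (R →ₐ[k] C.functionField) := fun h => 
    { (τ h.1 h.2.2).hom.comp (θ.symm : R →+* Γ(X, V)) with 
      commutes' := fun a => by
        change τ h.1 h.2.2 (θ.symm (algebraMap k R a)) = constants k g a
        rw [hθ', hτstr _ h.2.2 h.2.1] }
  have hFθ : ∀ h w, F h (θ w) = τ h.1 h.2.2 w := fun h w => by
    change τ h.1 h.2.2 (θ.symm (θ w)) = _
    rw [θ.symm_apply_apply]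
  have hFmem : ∀ h, F h ∈ {φ : R →ₐ[k] C.functionField | 
      ∀ r, P.Ge 1 (φ r - algebraMap k C.functionField (xr r))} := by
    intro h r
    obtain ⟨w, rfl⟩ := θ.surjective r
    rw [hFθ, hxr]
    have h1 := hP (σ h.1 h.2.2 w - algebraMap k _ (sec V x hxV w)) (by
      rw [map_sub, hψ, hσx h.1 h.2.2]
      exact sub_self _)
    rw [map_sub, ← IsScalarTower.algebraMap_apply] at h1
    rw [hτσ h.1 h.2.2]
    exact h1
  have hFinj : Function.Injective F := by
    intro h h' heq
    apply Subtype.ext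
    have h1 : τ h.1 h.2.2 = τ h'.1 h'.2.2 := by
      ext w
      have := congrArg (fun t => t (θ w)) heq
      rw [hFθ, hFθ] at this
      exact this
    have h2 := sec_ext V hV _ _ _ _ h1
    have hdom : IsDominant (C.fromSpecStalk (genericPoint C)) := isDominant_generic
    exact ext_of_isDominant_of_isSeparated f (h.2.1.trans h'.2.1.symm) 
      (C.fromSpecStalk (genericPoint C)) h2
  have hfin' := hF.to_subtype
  exact Finite.of_injective (fun h => (⟨F h, hFmem h⟩ : {φ : R →ₐ[k] C.functionField | 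
      ∀ r, P.Ge 1 (φ r - algebraMap k C.functionField (xr r))})) 
    (fun a b hab => hFinj (congrArg Subtype.val hab))

end main

end PGH
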